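import Mathlib

/-!
# Definitions for the fourth root bound

`S n` is the integral of `sin ^ n` over `[0, π]`; `H` is the derivative in the angle of the
coefficient `A1` of the radial part of the field.
-/

open Real

namespace Pool.Agent.Helper19.QR

noncomputable section

/-- The integral of `sin ^ n` over `[0, π]`. -/
def S (n : ℕ) : ℝ := ∫ t in (0 : ℝ)..π, sin t ^ n

/-- The constant part of `H`. -/
def cw (k : ℕ) (l : ℝ) : ℝ := 11 / 8 + k / l + 3 * l / 8

/-- The derivative of `A1`. -/
def H (k : ℕ) (l ρ t : ℝ) : ℝ :=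
  sin t ^ (k - 2) * ((l / 2 + 1) * (k - 1) * ((√(k : ℝ))⁻¹ / 2 + √(k : ℝ) * cos t ^ 2 / 2)
      - l / 2 * (k - 1) * cos t + cw k l)
    + k * ρ * ((1 - cos t) * sin t ^ (k - 3))

/-- The coefficient of the radial part of the field, as a function of the angle. -/
def A1 (k : ℕ) (l ρ a t : ℝ) : ℝ := a + ∫ u in (0 : ℝ)..t, H k l ρ u

end

end Pool.Agent.Helper19.QR
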