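import Pool.Agent.Helper19.QR.Polar

/-!
# The field: angle, coefficients, smoothness
-/

open MeasureTheory Module Metric Set
open scoped RealInnerProductSpace ContDiff Topology

namespace Pool.Agent.Helper19.QR

open FBM FBK

variable {n : ℕ}

/-- The angle. -/
noncomputable def th (ρ : ℝ) (p x : E n) : ℝ := 2 * Real.arctan (rr p x / ρ)

/-- The weight. -/
noncomputable def wf (k : ℕ) (ρ : ℝ) (p x : E n) : ℝ := Real.sin (th ρ p x) ^ (k - 1)

/-- The coefficient of the radial part. -/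
noncomputable def Af (k : ℕ) (l ρ a : ℝ) (p x : E n) : ℝ :=
  A1 k l ρ a (th ρ p x) + l * wf k ρ p x * (1 - Real.exp (-zt k p x / l))

/-- The coefficient of the position. -/
noncomputable def Bf (k : ℕ) (l ρ : ℝ) (p x : E n) : ℝ :=
  -(wf k ρ p x * Real.exp (-zt k p x / l))

/-- The field. -/
noncomputable def Wf (k : ℕ) (l ρ a : ℝ) (p : E n) (z : E n) : E n :=
  ((Af k l ρ a p z + rr p z * Bf k l ρ p z) * ((rr p z)⁻¹) ^ k) • z
    + (-(Af k l ρ a p z * ((rr p z)⁻¹) ^ k)) • p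

theorem sin_two_arctan (u : ℝ) : Real.sin (2 * Real.arctan u) = 2 * u / (1 + u ^ 2) := by
  rw [Real.sin_two_mul, Real.sin_arctan, Real.cos_arctan]
  have h : √(1 + u ^ 2) * √(1 + u ^ 2) = 1 + u ^ 2 := Real.mul_self_sqrt (by positivity)
  have h0 : 0 < √(1 + u ^ 2) := Real.sqrt_pos.2 (by positivity)
  generalize √(1 + u ^ 2) = q at *
  rw [← h]
  field_simp

theorem cos_two_arctan (u : ℝ) : Real.cos (2 * Real.arctan u) = (1 - u ^ 2) / (1 + u ^ 2) := by
  rw [Real.cos_two_mul, Real.cos_sq_arctan]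
  have : (0 : ℝ) < 1 + u ^ 2 := by positivity
  field_simp
  ring

section

variable {k : ℕ} {l ρ a : ℝ} {p x : E n}

theorem sin_th (hρ : 0 < ρ) : Real.sin (th ρ p x) = 2 * rr p x * ρ / (rr p x ^ 2 + ρ ^ 2) := by
  unfold th
  rw [sin_two_arctan]
  have : 0 < rr p x ^ 2 + ρ ^ 2 := by positivity
  have h2 : 0 < 1 + (rr p x / ρ) ^ 2 := by positivity
  field_simp
  ring

theorem cos_th (hρ : 0 < ρ) :
    Real.cos (th ρ p x) = (ρ ^ 2 - rr p x ^ 2) / (rr p x ^ 2 + ρ ^ 2) := by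
  unfold th
  rw [cos_two_arctan]
  have : 0 < rr p x ^ 2 + ρ ^ 2 := by positivity
  have h2 : 0 < 1 + (rr p x / ρ) ^ 2 := by positivity
  field_simp
  ring

theorem th_mem (hρ : 0 < ρ) (h : ‖x‖ < ‖p‖) : th ρ p x ∈ Ioo 0 Real.pi := by
  have hr := rr_pos h
  unfold th
  constructor
  · have := Real.arctan_pos.2 (div_pos hr hρ)
    linarith
  · have := Real.arctan_lt_pi_div_two (rr p x / ρ)
    linarith

theorem rr_sin (hρ : 0 < ρ) :
    rr p x * Real.sin (th ρ p x) = ρ * (1 - Real.cos (th ρ p x)) := by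
  rw [sin_th hρ, cos_th hρ]
  have : 0 < rr p x ^ 2 + ρ ^ 2 := by positivity
  field_simp
  ring

theorem JJ_th (hρ : 0 < ρ) (h : ‖x‖ < ‖p‖) : JJ k p x (th ρ p) (Real.sin (th ρ p x)) 0 := by
  have hr := rr_pos h
  have h1 : HasDerivAt (fun r : ℝ => 2 * Real.arctan (r / ρ))
      (2 * (1 / (1 + (rr p x / ρ) ^ 2) * (1 / ρ))) (rr p x) :=
    (((hasDerivAt_id (rr p x)).div_const ρ).arctan).const_mul 2
  refine ((JJ.rr (k := k) h).comp h1).congr ?_ (by ring)
  rw [sin_th hρ]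
  have : 0 < rr p x ^ 2 + ρ ^ 2 := by positivity
  field_simp
  ring

theorem JJ_wf (hk : 2 ≤ k) (hρ : 0 < ρ) (h : ‖x‖ < ‖p‖) :
    JJ k p x (wf k ρ p) ((k - 1) * wf k ρ p x * Real.cos (th ρ p x)) 0 := by
  have h1 := (JJ_th (k := k) hρ h).comp ((Real.hasDerivAt_sin (th ρ p x)).pow (k - 1))
  refine h1.congr ?_ (by ring)
  unfold wf
  obtain ⟨j, rfl⟩ : ∃ j, k = j + 2 := ⟨k - 2, by omega⟩
  rw [show j + 2 - 1 = j + 1 by omega, show j + 1 - 1 = j by omega]
  push_cast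
  rw [pow_succ (Real.sin (th ρ p x)) j]
  ring

theorem JJ_exp (h : ‖x‖ < ‖p‖) :
    JJ k p x (fun x => Real.exp (-zt k p x / l)) 0 (-(Real.exp (-zt k p x / l) / l)) := by
  have h1 : HasDerivAt (fun z : ℝ => Real.exp (-z / l)) (Real.exp (-zt k p x / l) * (-1 / l))
      (zt k p x) := (((hasDerivAt_id (zt k p x)).neg).div_const l).exp
  exact ((JJ.zt (k := k) h).comp h1).congr (by ring) (by ring)

end

end Pool.Agent.Helper19.QR
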