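import Pool.Agent.Helper19.QR.Field
import Pool.Agent.Helper73.QR.Ang
import Pool.Agent.Helper14.QR.Pt

/-!
# The divergence of the field is nonnegative; its flux
-/

open MeasureTheory Module Metric Set
open scoped RealInnerProductSpace ContDiff Topology

namespace Pool.Agent.Helper19.QR

open FBM FBK Pool.Agent.Helper73.QR Pool.Agent.Helper14.QR

variable {n : ℕ}

section

variable {k : ℕ} {l ρ a : ℝ} {p x : E n}

theorem JJ_Af (hk : 2 ≤ k) (hl : 0 < l) (hρ : 0 < ρ) (h : ‖x‖ < ‖p‖) :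
    JJ k p x (Af k l ρ a p)
      (H k l ρ (th ρ p x) * Real.sin (th ρ p x)
        + l * ((k - 1) * wf k ρ p x * Real.cos (th ρ p x)) * (1 - Real.exp (-zt k p x / l)))
      (wf k ρ p x * Real.exp (-zt k p x / l)) := by
  have h1 := (JJ_th (k := k) hρ h).comp (hasDerivAt_A1 k l ρ a (th ρ p x))
  have h2 := (((JJ.const (k := k) (p := p) (x := x) l).mul (JJ_wf hk hρ h)).mul
    ((JJ.const (k := k) (p := p) (x := x) 1).sub (JJ_exp (k := k) (l := l) h)))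
  refine (h1.add h2).congr ?_ ?_
  · ring
  · field_simp
    ring

theorem JJ_Bf (hk : 2 ≤ k) (hl : 0 < l) (hρ : 0 < ρ) (h : ‖x‖ < ‖p‖) :
    JJ k p x (Bf k l ρ p)
      (-((k - 1) * wf k ρ p x * Real.cos (th ρ p x) * Real.exp (-zt k p x / l)))
      (wf k ρ p x * Real.exp (-zt k p x / l) / l) := by
  have h1 := ((JJ_wf hk hρ h).mul (JJ_exp (k := k) (l := l) h)).neg
  refine h1.congr ?_ ?_
  · ring
  · field_simp
    ring

theorem div_Wf_nonneg (hk : 4 ≤ k) (hl : 0 < l) (hρ : 0 < ρ)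
    (ha : 32 / 27 * ρ * k + 11 / 8 + k / l + √(((k : ℝ) - 1) / 2) ≤ k * a)
    (hx : ‖x‖ ≤ 1) (hp : 1 < ‖p‖) (T : Submodule ℝ (E n)) (hT : finrank ℝ T = k) :
    0 ≤ divAlong T (Wf k l ρ a p) x := by
  have h : ‖x‖ < ‖p‖ := lt_of_le_of_lt hx hp
  have hr := rr_pos h
  have hk0 : (0 : ℝ) < k := by
    have : 0 < k := by omega
    exact_mod_cast this
  have hth := th_mem hρ h
  have hkey := div_polar h T hT (JJ_Af (a := a) (by omega) hl hρ h) (JJ_Bf (by omega) hl hρ h)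
  have hW : Wf k l ρ a p = fun z => ((Af k l ρ a p z + rr p z * Bf k l ρ p z)
      * ((rr p z)⁻¹) ^ k) • z + (-(Af k l ρ a p z * ((rr p z)⁻¹) ^ k)) • p := rfl
  rw [hW, hkey]
  refine mul_nonneg (by positivity) ?_
  have hz : 0 ≤ zt k p x := by
    unfold zt
    have : 0 ≤ 1 - ‖x‖ ^ 2 := by nlinarith [norm_nonneg x]
    positivity
  have hn1 : ‖T.starProjection x‖ ≤ 1 := (T.norm_starProjection_apply_le x).trans hx
  have hn2 : ‖T.starProjection (x - p)‖ ≤ rr p x := by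
    refine (T.norm_starProjection_apply_le (x - p)).trans (le_of_eq ?_)
    unfold rr
    rw [Qf_eq, Real.sqrt_sq (norm_nonneg _)]
  have hξ0 : 0 ≤ ‖T.starProjection (x - p)‖ ^ 2 / rr p x ^ 2 := by positivity
  have hξ1 : ‖T.starProjection (x - p)‖ ^ 2 / rr p x ^ 2 ≤ 1 := by
    rw [div_le_one (by positivity)]
    exact pow_le_pow_left₀ (norm_nonneg _) hn2 2
  have hb : ‖T.starProjection x‖ ^ 2 ≤ 1 := pow_le_one₀ (norm_nonneg _) hn1
  have hg : |⟪T.starProjection x, T.starProjection (x - p)⟫ / rr p x| ≤ 1 := by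
    rw [abs_div, abs_of_pos hr, div_le_one hr]
    refine (abs_real_inner_le_norm _ _).trans ?_
    calc ‖T.starProjection x‖ * ‖T.starProjection (x - p)‖ ≤ 1 * rr p x :=
          mul_le_mul hn1 hn2 (norm_nonneg _) zero_le_one
      _ = rr p x := one_mul _
  have hA : 32 / 27 * ρ * k + 11 / 8 + k / l + √(((k : ℝ) - 1) / 2)
      ≤ k * A1 k l ρ a (th ρ p x) := ha.trans
        (mul_le_mul_of_nonneg_left (le_A1 hk hl hρ.le a ⟨hth.1.le, hth.2.le⟩) hk0.le)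
  have hP := point hk hl hρ hth (rr_sin (p := p) (x := x) hρ) (w := wf k ρ p x) rfl hA hz hξ0 hξ1
    hb hg
  refine hP.trans (le_of_eq ?_)
  unfold Af Bf
  ring

theorem contDiffAt_Wf (k : ℕ) (l ρ a : ℝ) (h : ‖x‖ < ‖p‖) :
    ContDiffAt ℝ ∞ (Wf k l ρ a p) x := by
  have hz : ContDiffAt ℝ ∞ (fun x : E n => ⟪p, x⟫) x := contDiffAt_const.inner ℝ contDiffAt_id
  have hn : ContDiffAt ℝ ∞ (fun x : E n => ‖x‖ ^ 2) x := contDiffAt_id.norm_sq ℝ
  have hQ : ContDiffAt ℝ ∞ (Qf p) x := by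
    unfold Qf
    fun_prop
  have hr : ContDiffAt ℝ ∞ (rr p) x := hQ.sqrt (Qf_pos h).ne'
  have hr0 : rr p x ≠ 0 := (rr_pos h).ne'
  have hri : ContDiffAt ℝ ∞ (fun z => (rr p z)⁻¹) x := hr.inv hr0
  have hzt : ContDiffAt ℝ ∞ (zt k p) x := by
    have e : zt k p = fun z => (k : ℝ) * (1 - ‖z‖ ^ 2) * (rr p z)⁻¹ * (2 : ℝ)⁻¹ := by
      funext z
      unfold zt
      rcases eq_or_ne (rr p z) 0 with h0 | h0
      · simp [h0]
      · field_simp
    rw [e]
    exact (((contDiffAt_const.mul (contDiffAt_const.sub hn)).mul hri)).mul contDiffAt_const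
  have hth : ContDiffAt ℝ ∞ (th ρ p) x := by
    unfold th
    exact contDiffAt_const.mul ((hr.div_const ρ).arctan)
  have hw : ContDiffAt ℝ ∞ (wf k ρ p) x := by
    unfold wf
    exact (hth.sin).pow _
  have hφ : ContDiffAt ℝ ∞ (fun z => Real.exp (-zt k p z / l)) x := (hzt.neg.div_const l).exp
  have hA1 : ContDiffAt ℝ ∞ (fun z => A1 k l ρ a (th ρ p z)) x :=
    (contDiff_A1 k l ρ a).contDiffAt.comp x hth
  have hA : ContDiffAt ℝ ∞ (Af k l ρ a p) x := by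
    unfold Af
    exact hA1.add ((contDiffAt_const.mul hw).mul (contDiffAt_const.sub hφ))
  have hB : ContDiffAt ℝ ∞ (Bf k l ρ p) x := by
    unfold Bf
    exact (hw.mul hφ).neg
  unfold Wf
  exact (((hA.add (hr.mul hB)).mul (hri.pow k)).smul contDiffAt_id).add
    (((hA.mul (hri.pow k)).neg).smul contDiffAt_const)

theorem flux_Wf (hx : ‖x‖ = 1) (hp : ‖p‖ ^ 2 = 1 + ρ ^ 2) (hρ : 0 < ρ) :
    ⟪Wf k l ρ a p x, x⟫ = ((rr p x)⁻¹) ^ k *
      (A1 k l ρ a (th ρ p x) * ((rr p x ^ 2 - ρ ^ 2) / 2) - rr p x * wf k ρ p x) := by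
  have hp1 : ‖x‖ < ‖p‖ := by
    rw [hx]
    nlinarith [norm_nonneg p]
  have hq := rr_sq hp1
  have h0 : zt k p x = 0 := by
    unfold zt
    rw [hx]
    simp
  have hin : ⟪p, x⟫ = 1 - (rr p x ^ 2 - ρ ^ 2) / 2 := by
    have h2 : Qf p x = ‖x‖ ^ 2 - 2 * ⟪p, x⟫ + ‖p‖ ^ 2 := rfl
    rw [hq, h2, hx, hp]
    ring
  unfold Wf
  rw [inner_add_left, inner_smul_left, inner_smul_left, real_inner_self_eq_norm_sq, hx]
  simp only [RCLike.conj_to_real]
  rw [hin]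
  unfold Af Bf
  rw [h0]
  simp only [neg_zero, zero_div, Real.exp_zero]
  ring

end

end Pool.Agent.Helper19.QR
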