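import Pool.Agent.Helper19.QR.Flux
import Pool.Agent.Helper8.FB.Ratio

/-!
# The integrated inequality
-/

open MeasureTheory Module Metric Set
open scoped RealInnerProductSpace ContDiff Topology

namespace Pool.Agent.Helper19.QR

open FBM FBK Pool.Agent.Helper73.QR

variable {n : ℕ}

theorem integrable_flux {k : ℕ} {S Γ : Type*} [MeasurableSpace S]
    [MeasurableSpace Γ] {μ : Measure S} {u : S → E n} {T : S → Submodule ℝ (E n)}
    {σ : Measure Γ} {b : Γ → E n} (h : IsFreeBoundaryStationary k μ u T σ b)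
    (y : E n) (hy : 1 < ‖y‖) (W : E n → E n)
    (hW : ∀ x, ‖x‖ < ‖y‖ → ContDiffAt ℝ ∞ W x) :
    Integrable (fun p => ⟪W (b p), b p⟫) σ := by
  have := h.finite_boundary
  obtain ⟨X, hX, hXW⟩ := exists_extension hy hW
  have hc : Continuous (fun x : E n => ⟪X x, x⟫) := hX.continuous.inner continuous_id
  obtain ⟨B, hB⟩ := (isCompact_sphere (0 : E n) 1).exists_bound_of_continuousOn hc.continuousOn
  have hI : Integrable (fun p => ⟪X (b p), b p⟫) σ := by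
    refine Integrable.of_bound ?_ B ?_
    · exact (hc.measurable.comp_aemeasurable h.aemeasurable_boundary).aestronglyMeasurable
    · filter_upwards [h.boundary_mem] with p hp
      exact hB (b p) (by simpa using hp)
  refine hI.congr ?_
  filter_upwards [h.boundary_mem] with p hp
  rw [(hXW _ hp.le).eq_of_nhds]

/-- The integrand on the sphere. -/
theorem lam_eq {t z : ℝ} (ht : 0 < t) {Q : ℝ}
    (hQ : Q = 1 - 2 * ((1 / t + t) / 2) * z + ((1 / t + t) / 2) ^ 2)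
    (hD : 0 < 1 + t ^ 2 - 2 * t * z) :
    (1 - t ^ 2) / (1 + t ^ 2 - 2 * t * z) =
      2 * ((1 / t - t) / 2) * ((1 / t + t) / 2) / (Q + ((1 / t - t) / 2) ^ 2) := by
  have h1 : (Q + ((1 / t - t) / 2) ^ 2) = (1 + t ^ 2 - 2 * t * z) * ((1 / t + t) / 2) / t := by
    rw [hQ]
    field_simp
    ring
  have h2 : 0 < (1 / t + t) / 2 := by positivity
  rw [h1]
  have h3 : 1 - t ^ 2 = 2 * ((1 / t - t) / 2) * t := by
    field_simp
  rw [h3]
  generalize 1 + t ^ 2 - 2 * t * z = D at *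
  generalize (1 / t + t) / 2 = τ at *
  generalize (1 / t - t) / 2 = ρ at *
  field_simp

set_option maxHeartbeats 1000000 in
theorem main_bound {k : ℕ} (hk : 4 ≤ k) {S Γ : Type*} [MeasurableSpace S]
    [MeasurableSpace Γ] {μ : Measure S} {u : S → E n} {T : S → Submodule ℝ (E n)}
    {σ : Measure Γ} {b : Γ → E n} (h : IsFreeBoundaryStationary k μ u T σ b)
    {e : E n} (he : ‖e‖ = 1) {t : ℝ} (ht : 0 < t) (ht1 : t < 1) {l a : ℝ} (hl : 0 < l)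
    (ha0 : 0 ≤ a)
    (ha : 32 / 27 * ((1 / t - t) / 2) * k + 11 / 8 + k / l + √(((k : ℝ) - 1) / 2) ≤ k * a) :
    ∫ p, ((1 - t ^ 2) / (1 + t ^ 2 - 2 * t * ⟪e, b p⟫)) ^ (k - 1) ∂σ ≤
      ((1 / t + t) / 2 / 2 * (a + ((l / 2 + 1) * (k - 1) / √(k : ℝ) + cw k l) * QR.S (k - 2)
        + k * ((1 / t - t) / 2) * QR.S (k - 3))) * σ.real univ := by
  have := h.finite_boundary
  obtain ⟨ρ, hρd⟩ : ∃ ρ, ρ = (1 / t - t) / 2 := ⟨_, rfl⟩
  obtain ⟨τ, hτd⟩ : ∃ τ, τ = (1 / t + t) / 2 := ⟨_, rfl⟩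
  have h1t : 1 < 1 / t := by rw [lt_div_iff₀ ht]; linarith
  have hρ : 0 < ρ := by rw [hρd]; linarith
  have hτ : 1 < τ := by
    rw [hτd]
    have : 0 < (1 - t) ^ 2 := by
      have : 0 < 1 - t := by linarith
      positivity
    rw [lt_div_iff₀ (by norm_num : (0 : ℝ) < 2)]
    have h3 : 1 / t + t - 1 * 2 = (1 - t) ^ 2 / t := by field_simp; ring
    have h4 : 0 < (1 - t) ^ 2 / t := by positivity
    linarith
  have hτρ : τ ^ 2 = 1 + ρ ^ 2 := by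
    rw [hρd, hτd]; field_simp; ring
  have hτ0 : 0 < τ := by linarith
  obtain ⟨M, hM⟩ : ∃ M, M = a + ((l / 2 + 1) * (k - 1) / √(k : ℝ) + cw k l) * QR.S (k - 2)
        + k * ρ * QR.S (k - 3) := ⟨_, rfl⟩
  rw [← hρd, ← hτd, ← hM]
  rw [← hρd] at ha
  have hp : ‖τ • e‖ = τ := by
    rw [norm_smul, he, mul_one, Real.norm_eq_abs, abs_of_pos hτ0]
  have hp1 : 1 < ‖τ • e‖ := by rw [hp]; exact hτ
  have hp2 : ‖τ • e‖ ^ 2 = 1 + ρ ^ 2 := by rw [hp, hτρ]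
  have hsm : ∀ x : E n, ‖x‖ < ‖τ • e‖ → ContDiffAt ℝ ∞ (Wf k l ρ a (τ • e)) x :=
    fun x hx => contDiffAt_Wf k l ρ a hx
  have hF := fv_nonneg h (τ • e) hp1 (Wf k l ρ a (τ • e)) hsm
    (fun x hx T' hT' => div_Wf_nonneg hk hl hρ ha hx hp1 T' hT')
  have hFI := integrable_flux h (τ • e) hp1 (Wf k l ρ a (τ • e)) hsm
  have hτi : 0 ≤ τ⁻¹ := by positivity
  have hτi1 : τ⁻¹ < 1 := inv_lt_one_of_one_lt₀ hτ
  have hN := nk_le (by omega : 2 ≤ k) h he hτi hτi1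
  have hNI := integrable_den_rpow h he hτi hτi1 (fun _ => 1) continuous_const (1 - (k : ℝ) / 2)
  simp only [mul_one] at hNI
  have hM0 : 0 ≤ M := by
    have h0 := (le_A1 hk hl hρ.le a ⟨le_rfl, Real.pi_pos.le⟩).trans
      (A1_le hk hl hρ.le a ⟨le_rfl, Real.pi_pos.le⟩)
    rw [hM]
    linarith
  -- the pointwise inequality
  have hpt : ∀ x : E n, ‖x‖ = 1 →
      ((1 - t ^ 2) / (1 + t ^ 2 - 2 * t * ⟪e, x⟫)) ^ (k - 1)
        ≤ τ / 2 * M * (1 + τ⁻¹ ^ 2 - 2 * τ⁻¹ * ⟪e, x⟫) ^ (1 - (k : ℝ) / 2)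
          - τ ^ (k - 1) * ⟪Wf k l ρ a (τ • e) x, x⟫ := by
    intro x hx
    have hxp : ‖x‖ < ‖τ • e‖ := by rw [hx]; exact hp1
    have hr := rr_pos hxp
    have hq := rr_sq hxp
    have hth := th_mem hρ hxp
    have hD := den_pos ht.le ht1 he hx
    have hQ : Qf (τ • e) x = 1 - 2 * ((1 / t + t) / 2) * ⟪e, x⟫ + ((1 / t + t) / 2) ^ 2 := by
      have h2 : Qf (τ • e) x = ‖x‖ ^ 2 - 2 * ⟪τ • e, x⟫ + ‖τ • e‖ ^ 2 := rfl
      rw [h2, hx, hp, inner_smul_left, ← hτd]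
      simp only [RCLike.conj_to_real]
      ring
    rw [lam_eq ht hQ hD, flux_Wf hx hp2 hρ, ← hρd, ← hτd, ← hq]
    have hw : wf k ρ (τ • e) x = (2 * rr (τ • e) x * ρ / (rr (τ • e) x ^ 2 + ρ ^ 2)) ^ (k - 1) := by
      unfold wf
      rw [sin_th hρ]
    have hA := A1_le hk hl hρ.le a (t := th ρ (τ • e) x) ⟨hth.1.le, hth.2.le⟩
    have hA0 := le_A1 hk hl hρ.le a (t := th ρ (τ • e) x) ⟨hth.1.le, hth.2.le⟩
    rw [← hM] at hA
    have hden : (1 + τ⁻¹ ^ 2 - 2 * τ⁻¹ * ⟪e, x⟫) ^ (1 - (k : ℝ) / 2) =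
        τ ^ (k - 2) * (rr (τ • e) x ^ 2 * ((rr (τ • e) x)⁻¹) ^ k) := by
      have h5 : 1 + τ⁻¹ ^ 2 - 2 * τ⁻¹ * ⟪e, x⟫ = (rr (τ • e) x / τ) ^ 2 := by
        rw [div_pow, hq, hQ, ← hτd]
        field_simp
        ring
      have hc : 0 < rr (τ • e) x / τ := by positivity
      rw [h5, ← Real.rpow_natCast (rr (τ • e) x / τ) 2, ← Real.rpow_mul hc.le]
      have h6 : ((2 : ℕ) : ℝ) * (1 - (k : ℝ) / 2) = 2 + (-(k : ℝ)) := by push_cast; ring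
      rw [h6, Real.rpow_add hc, Real.rpow_neg hc.le, Real.rpow_natCast,
        show (2 : ℝ) = ((2 : ℕ) : ℝ) by norm_num, Real.rpow_natCast]
      obtain ⟨j, rfl⟩ : ∃ j, k = j + 2 := ⟨k - 2, by omega⟩
      rw [Nat.add_sub_cancel, div_pow, div_pow, inv_pow]
      field_simp
      ring
    rw [hden]
    generalize A1 k l ρ a (th ρ (τ • e) x) = A at *
    generalize wf k ρ (τ • e) x = w at *
    generalize rr (τ • e) x = r at *
    have hlam : (2 * ρ * τ / (r ^ 2 + ρ ^ 2)) ^ (k - 1) = τ ^ (k - 1) * (r * w * (r⁻¹) ^ k) := by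
      rw [hw]
      obtain ⟨j, rfl⟩ : ∃ j, k = j + 1 := ⟨k - 1, by omega⟩
      rw [Nat.add_sub_cancel, pow_succ (r⁻¹) j]
      have h7 : 2 * ρ * τ / (r ^ 2 + ρ ^ 2) = τ * (2 * r * ρ / (r ^ 2 + ρ ^ 2)) * r⁻¹ := by
        field_simp
      rw [h7, mul_pow, mul_pow]
      field_simp
    rw [hlam]
    have hR : 0 < (r⁻¹) ^ k := by positivity
    have hτk : τ / 2 * M * (τ ^ (k - 2) * (r ^ 2 * (r⁻¹) ^ k)) =
        τ ^ (k - 1) * (M / 2 * (r ^ 2 * (r⁻¹) ^ k)) := by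
      obtain ⟨j, rfl⟩ : ∃ j, k = j + 2 := ⟨k - 2, by omega⟩
      rw [Nat.add_sub_cancel, show j + 2 - 1 = j + 1 by omega, pow_succ τ j]
      ring
    rw [hτk]
    have h8 : 0 ≤ (r⁻¹) ^ k * (M / 2 * r ^ 2 - A * ((r ^ 2 - ρ ^ 2) / 2)) := by
      refine mul_nonneg hR.le ?_
      nlinarith [mul_nonneg (sub_nonneg.2 hA) (sq_nonneg r), mul_nonneg (ha0.trans hA0)
        (sq_nonneg ρ)]
    have h9 : 0 ≤ τ ^ (k - 1) * ((r⁻¹) ^ k * (M / 2 * r ^ 2 - A * ((r ^ 2 - ρ ^ 2) / 2))) :=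
      mul_nonneg (by positivity) h8
    generalize τ ^ (k - 1) = X at *
    generalize (r⁻¹) ^ k = R at *
    have h10 : X * (M / 2 * (r ^ 2 * R)) - X * (R * (A * ((r ^ 2 - ρ ^ 2) / 2) - r * w))
        - X * (r * w * R) = X * (R * (M / 2 * r ^ 2 - A * ((r ^ 2 - ρ ^ 2) / 2))) := by ring
    linarith
  have hI1 : Integrable (fun p => τ / 2 * M * (1 + τ⁻¹ ^ 2 - 2 * τ⁻¹ * ⟪e, b p⟫) ^
      (1 - (k : ℝ) / 2) - τ ^ (k - 1) * ⟪Wf k l ρ a (τ • e) (b p), b p⟫) σ :=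
    (hNI.const_mul _).sub (hFI.const_mul _)
  have h1 : ∫ p, ((1 - t ^ 2) / (1 + t ^ 2 - 2 * t * ⟪e, b p⟫)) ^ (k - 1) ∂σ ≤
      ∫ p, (τ / 2 * M * (1 + τ⁻¹ ^ 2 - 2 * τ⁻¹ * ⟪e, b p⟫) ^ (1 - (k : ℝ) / 2)
        - τ ^ (k - 1) * ⟪Wf k l ρ a (τ • e) (b p), b p⟫) ∂σ := by
    refine integral_mono_of_nonneg ?_ hI1 ?_
    · filter_upwards [h.boundary_mem] with p hp
      have h2 := den_pos ht.le ht1 he hp
      have h3 : 0 < 1 - t ^ 2 := by nlinarith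
      simp only [Pi.zero_apply]
      positivity
    · filter_upwards [h.boundary_mem] with p hp
      exact hpt _ hp
  refine h1.trans ?_
  rw [integral_sub (hNI.const_mul _) (hFI.const_mul _), integral_const_mul, integral_const_mul]
  have h2 : 0 ≤ τ ^ (k - 1) * ∫ p, ⟪Wf k l ρ a (τ • e) (b p), b p⟫ ∂σ :=
    mul_nonneg (by positivity) hF
  have h3 := mul_le_mul_of_nonneg_left hN (by positivity : 0 ≤ τ / 2 * M)
  linarith

end Pool.Agent.Helper19.QR
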