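import Pool.Agent.Helper8.FB.Poisson
import Pool.Agent.Helper19.QR.Defs

/-!
# Derivatives in the coordinates `log r` and `k (1 - |x|²) / (2 r)`, and the divergence of a field
-/

open MeasureTheory Module Metric Set
open scoped RealInnerProductSpace ContDiff Topology

namespace Pool.Agent.Helper19.QR

open FBM FBK

variable {n : ℕ}

/-- The distance to `p`. -/
noncomputable def rr (p x : E n) : ℝ := √(Qf p x)

/-- The second coordinate. -/
noncomputable def zt (k : ℕ) (p x : E n) : ℝ := k * (1 - ‖x‖ ^ 2) / (2 * rr p x)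

theorem rr_pos {p x : E n} (h : ‖x‖ < ‖p‖) : 0 < rr p x := Real.sqrt_pos.2 (Qf_pos h)

theorem rr_sq {p x : E n} (h : ‖x‖ < ‖p‖) : rr p x ^ 2 = Qf p x := Real.sq_sqrt (Qf_pos h).le

/-- `f` has the derivatives `u`, `v` in the two coordinates. -/
def JJ (k : ℕ) (p x : E n) (f : E n → ℝ) (u v : ℝ) : Prop :=
  J p x f ((-u + zt k p x * v) / rr p x ^ 2)
    (u / rr p x ^ 2 - v * (k / rr p x + zt k p x / rr p x ^ 2))

namespace JJ

variable {k : ℕ} {p x : E n} {f g : E n → ℝ} {a b c d : ℝ}

theorem congr (h : JJ k p x f a b) {a' b' : ℝ} (ha : a = a') (hb : b = b') : JJ k p x f a' b' := by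
  subst ha hb; exact h

theorem const (r : ℝ) : JJ k p x (fun _ => r) 0 0 :=
  (J.const r).congr (by simp) (by simp)

theorem add (h : JJ k p x f a b) (h' : JJ k p x g c d) :
    JJ k p x (fun x => f x + g x) (a + c) (b + d) :=
  (J.add h h').congr (by ring) (by ring)

theorem sub (h : JJ k p x f a b) (h' : JJ k p x g c d) :
    JJ k p x (fun x => f x - g x) (a - c) (b - d) :=
  (J.sub h h').congr (by ring) (by ring)

theorem neg (h : JJ k p x f a b) : JJ k p x (fun x => -f x) (-a) (-b) :=
  (J.neg h).congr (by ring) (by ring)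

theorem mul (h : JJ k p x f a b) (h' : JJ k p x g c d) :
    JJ k p x (fun x => f x * g x) (f x * c + g x * a) (f x * d + g x * b) :=
  (J.mul h h').congr (by ring) (by ring)

theorem comp (h : JJ k p x f a b) {F : ℝ → ℝ} {F' : ℝ} (hF : HasDerivAt F F' (f x)) :
    JJ k p x (fun x => F (f x)) (F' * a) (F' * b) := by
  have h1 := hF.comp_hasFDerivAt x h
  refine h1.congr_fderiv ?_
  ext v
  simp only [_root_.smul_apply, _root_.add_apply, smul_eq_mul, innerSL_apply_apply]
  ring

theorem rr (h : ‖x‖ < ‖p‖) : JJ k p x (rr p) (rr p x) 0 := by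
  have hQ := Qf_pos h
  have hr := rr_pos h
  have h1 := (Real.hasDerivAt_sqrt hQ.ne').comp_hasFDerivAt x (J_Q p x)
  refine h1.congr_fderiv ?_
  have e : √(Qf p x) = QR.rr p x := rfl
  ext v
  simp only [_root_.smul_apply, _root_.add_apply, smul_eq_mul, innerSL_apply_apply, e]
  field_simp
  ring

theorem zt (h : ‖x‖ < ‖p‖) : JJ k p x (zt k p) 0 1 := by
  have hr := rr_pos h
  have h1 : J p x (fun x => ‖x‖ ^ 2) 0 2 := J.rho
  have h2 : JJ k p x (fun x => (QR.rr p x)⁻¹) (-(QR.rr p x)⁻¹) 0 :=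
    ((rr h).comp (hasDerivAt_inv hr.ne')).congr (by field_simp) (by ring)
  have h3 := ((((J.const (1 : ℝ)).sub h1).mul h2).mul (J.const ((k : ℝ) / 2)))
  have e : QR.zt k p = fun x => (1 - ‖x‖ ^ 2) * (QR.rr p x)⁻¹ * ((k : ℝ) / 2) := by
    funext x
    unfold QR.zt
    rcases eq_or_ne (QR.rr p x) 0 with h0 | h0
    · simp [h0]
    · field_simp
  rw [e]
  refine h3.congr ?_ ?_
  · rw [e]
    field_simp
    ring
  · rw [e]
    field_simp
    ring

end JJ

theorem div_polar {k : ℕ} {p x : E n} (h : ‖x‖ < ‖p‖) (T : Submodule ℝ (E n))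
    (hT : finrank ℝ T = k) {A B : E n → ℝ} {A1 A2 B1 B2 : ℝ} (hA : JJ k p x A A1 A2)
    (hB : JJ k p x B B1 B2) :
    divAlong T (fun z => ((A z + rr p z * B z) * ((rr p z)⁻¹) ^ k) • z
        + (-(A z * ((rr p z)⁻¹) ^ k)) • p) x =
      ((rr p x)⁻¹) ^ k * (k * A x * (1 - ‖T.starProjection (x - p)‖ ^ 2 / rr p x ^ 2)
        + A1 * (‖T.starProjection (x - p)‖ ^ 2 / rr p x ^ 2)
        - A2 * (k * (⟪T.starProjection x, T.starProjection (x - p)⟫ / rr p x)
            + zt k p x * (‖T.starProjection (x - p)‖ ^ 2 / rr p x ^ 2))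
        + k * rr p x * B x
        + (B1 + (1 - k) * B x) * (⟪T.starProjection x, T.starProjection (x - p)⟫ / rr p x)
        - B2 * (k * ‖T.starProjection x‖ ^ 2
            + zt k p x * (⟪T.starProjection x, T.starProjection (x - p)⟫ / rr p x))) := by
  have hr := rr_pos h
  have hR : JJ k p x (fun z => ((rr p z)⁻¹) ^ k) (-(k * ((rr p x)⁻¹) ^ k)) 0 := by
    have h1 := (JJ.rr (k := k) h).comp ((hasDerivAt_inv hr.ne').pow k)
    refine h1.congr ?_ (by ring)
    rcases k with _ | k
    · simp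
    · simp only [Nat.add_sub_cancel]
      push_cast
      have e : ((rr p x)⁻¹) ^ (k + 1) = ((rr p x)⁻¹) ^ k * (rr p x)⁻¹ := pow_succ _ _
      rw [e]
      field_simp
  have hα := (hA.add ((JJ.rr (k := k) h).mul hB)).mul hR
  have hβ := (hA.mul hR).neg
  rw [div_two T hT x p _ _ _ _ _ _ hα hβ]
  have e1 : ‖x‖ ^ 2 - ‖x - T.starProjection x‖ ^ 2 = ‖T.starProjection x‖ ^ 2 := by
    have := T.starProjection_inner_eq_zero x (T.starProjection x) (by simp)
    have h2 : ‖x‖ ^ 2 = ‖(x - T.starProjection x) + T.starProjection x‖ ^ 2 := by simp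
    rw [norm_add_sq_real, this] at h2
    linarith
  have e2 : ‖p‖ ^ 2 - ‖p - T.starProjection p‖ ^ 2 = ‖T.starProjection p‖ ^ 2 := by
    have := T.starProjection_inner_eq_zero p (T.starProjection p) (by simp)
    have h2 : ‖p‖ ^ 2 = ‖(p - T.starProjection p) + T.starProjection p‖ ^ 2 := by simp
    rw [norm_add_sq_real, this] at h2
    linarith
  have e3 : ⟪p, x⟫ - ⟪x - T.starProjection x, p - T.starProjection p⟫ =
      ⟪T.starProjection x, T.starProjection p⟫ := by
    have h1 := T.starProjection_inner_eq_zero x (T.starProjection p) (by simp)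
    have h2 := T.starProjection_inner_eq_zero p (T.starProjection x) (by simp)
    have h3 : ⟪p, x⟫ = ⟪(x - T.starProjection x) + T.starProjection x,
        (p - T.starProjection p) + T.starProjection p⟫ := by
      simp [real_inner_comm]
    rw [inner_add_left, inner_add_right, inner_add_right, h1,
      real_inner_comm (p - T.starProjection p) (T.starProjection x), h2] at h3
    linarith
  have e4 : T.starProjection p = T.starProjection x - T.starProjection (x - p) := by
    rw [map_sub]; abel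
  have e5 : ‖T.starProjection p‖ ^ 2 = ‖T.starProjection x‖ ^ 2
      - 2 * ⟪T.starProjection x, T.starProjection (x - p)⟫
      + ‖T.starProjection (x - p)‖ ^ 2 := by
    rw [e4, norm_sub_sq_real]
  have e6 : ⟪T.starProjection x, T.starProjection p⟫ = ‖T.starProjection x‖ ^ 2
      - ⟪T.starProjection x, T.starProjection (x - p)⟫ := by
    rw [e4, inner_sub_right, real_inner_self_eq_norm_sq]
  rw [e5] at e2
  rw [e6] at e3
  generalize ‖T.starProjection x‖ ^ 2 = b at *
  generalize ⟪T.starProjection x, T.starProjection (x - p)⟫ = g at *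
  generalize ‖T.starProjection (x - p)‖ ^ 2 = q at *
  have f1 : ‖x - T.starProjection x‖ ^ 2 = ‖x‖ ^ 2 - b := by linarith
  have f2 : ‖p - T.starProjection p‖ ^ 2 = ‖p‖ ^ 2 - (b - 2 * g + q) := by linarith
  have f3 : ⟪x - T.starProjection x, p - T.starProjection p⟫ = ⟪p, x⟫ - (b - g) := by linarith
  rw [f1, f2, f3]
  generalize ((rr p x)⁻¹) ^ k = R at *
  generalize zt k p x = z at *
  generalize rr p x = r at *
  generalize A x = A0 at *
  generalize B x = B0 at *
  field_simp
  ring

end Pool.Agent.Helper19.QR
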