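import Pool.Agent.Helper19.QR.Main
import Pool.Agent.Helper33.QR.Num

/-!
# The boundary volume under conformal maps of the ball, in every dimension

For all free boundary stationary data of dimension `k ≥ 4` in the unit ball of any Euclidean space,
a conformal automorphism of the ball with pole `y` does not increase the boundary volume if
`‖y‖ ^ 2 ≥ 9 k`, and increases it at most by an explicit factor otherwise, in particular at most by
the factor `3 k ^ (1 / 4)`. For `k ≥ 160000`, in every codimension at least two, there are such data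
whose boundary volume is increased at least by the factor `k ^ (1 / 4) / 120`.
-/

open MeasureTheory Module Metric Set
open scoped RealInnerProductSpace ContDiff Topology

namespace Pool.Agent.Helper19.QRU

open FBM FBK

variable {n : ℕ}

/-- The bound for the ratio of the boundary volumes, for a conformal map with pole at distance `s`
from the centre of the ball. -/
noncomputable def ratioBound (k : ℕ) (s : ℝ) : ℝ :=
  if 9 * k ≤ s ^ 2 then 1
  else min (k * (k * s ^ 2 + k - 2) / (k ^ 2 * s ^ 2 - (k - 2) ^ 2))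
    (min (Real.sqrt (k ^ k / (k - 1) ^ (k - 1)) / 2) (3 * (k : ℝ) ^ (1 / 4 : ℝ)))

theorem near {k : ℕ} (hk : 4 ≤ k) {S Γ : Type*} [MeasurableSpace S]
    [MeasurableSpace Γ] {μ : Measure S} {u : S → E n} {T : S → Submodule ℝ (E n)}
    {σ : Measure Γ} {b : Γ → E n} (h : IsFreeBoundaryStationary k μ u T σ b)
    {e : E n} (he : ‖e‖ = 1) {t : ℝ} (ht : 0 < t) (hkt : 9 * k * t ^ 2 ≤ 1) :
    ∫ p, ((1 - t ^ 2) / (1 + t ^ 2 - 2 * t * ⟪e, b p⟫)) ^ (k - 1) ∂σ ≤ σ.real univ := by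
  have h1 := antitone_cfac hk h he ht.le hkt ⟨le_rfl, ht.le⟩ ⟨ht.le, le_rfl⟩ ht.le
  simp only [cfac_zero] at h1
  simpa [cfac, div_eq_mul_inv] using h1

theorem rpow_split {k : ℕ} {X Y : ℝ} (hX : 0 < X) (hY : 0 < Y) :
    X ^ ((k : ℝ) / 2) * Y ^ (((k : ℝ) - 2) / 2) = X * (X * Y) ^ (((k : ℝ) - 2) / 2) := by
  have e1 : (k : ℝ) / 2 = ((k : ℝ) - 2) / 2 + 1 := by ring
  rw [e1, Real.rpow_add_one hX.ne', Real.mul_rpow hX.le hY.le]
  ring

theorem far_one {k : ℕ} (hk : 3 ≤ k) {S Γ : Type*} [MeasurableSpace S]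
    [MeasurableSpace Γ] {μ : Measure S} {u : S → E n} {T : S → Submodule ℝ (E n)}
    {σ : Measure Γ} {b : Γ → E n} (h : IsFreeBoundaryStationary k μ u T σ b)
    {e : E n} (he : ‖e‖ = 1) {t : ℝ} (ht : 0 < t) (ht1 : t < 1) :
    ∫ p, ((1 - t ^ 2) / (1 + t ^ 2 - 2 * t * ⟪e, b p⟫)) ^ (k - 1) ∂σ ≤
      (k * (k + (k - 2) * t ^ 2) / (k ^ 2 - (k - 2) ^ 2 * t ^ 2)) * σ.real univ := by
  have hk' : (3 : ℝ) ≤ k := by exact_mod_cast hk
  have hk0 : (0 : ℝ) < k := by linarith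
  have hk1 : (0 : ℝ) < k - 1 := by linarith
  have hk2 : (0 : ℝ) < k - 2 := by linarith
  have hc : (0 : ℝ) < (k - 2) / k := by positivity
  have hc1 : ((k : ℝ) - 2) / k < 1 := by rw [div_lt_one hk0]; linarith
  have h1 := ratio_bound hk h he ht ht1 hc hc1
  refine h1.trans (le_of_eq ?_)
  congr 1
  rw [rpow_split (by positivity) (by positivity)]
  have e1 : (k * (1 + ((k : ℝ) - 2) / k) / (2 * (k - 1) * (1 + (k - 2) / k * t ^ 2))) *
      ((k - 2) * (1 + (k - 2) / k) * (1 + (k - 2) / k * t ^ 2) / (2 * (k - 1) * ((k - 2) / k)))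
      = 1 := by
    field_simp
    ring
  rw [e1, Real.one_rpow, mul_one]
  have h3 : (k : ℝ) ^ 2 - (k - 2) ^ 2 * t ^ 2 ≠ 0 := by
    have h4 : (k - 2) ^ 2 * t ^ 2 < (k : ℝ) ^ 2 := by
      have : t ^ 2 < 1 := by nlinarith
      nlinarith
    exact (sub_pos.2 h4).ne'
  have h5 : 1 - (((k : ℝ) - 2) / k) ^ 2 * t ^ 2 = (k ^ 2 - (k - 2) ^ 2 * t ^ 2) / k ^ 2 := by
    field_simp
  have h6 : 1 + ((k : ℝ) - 2) / k * t ^ 2 = (k + (k - 2) * t ^ 2) / k := by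
    field_simp
  have h7 : 1 + ((k : ℝ) - 2) / k = 2 * (k - 1) / k := by
    field_simp; ring
  rw [h5, h6, h7]
  have h8 : (k : ℝ) + (k - 2) * t ^ 2 ≠ 0 := by positivity
  generalize (k : ℝ) ^ 2 - (k - 2) ^ 2 * t ^ 2 = A at *
  generalize (k : ℝ) + (k - 2) * t ^ 2 = B at *
  field_simp

theorem far_two {k : ℕ} (hk : 3 ≤ k) {S Γ : Type*} [MeasurableSpace S]
    [MeasurableSpace Γ] {μ : Measure S} {u : S → E n} {T : S → Submodule ℝ (E n)}
    {σ : Measure Γ} {b : Γ → E n} (h : IsFreeBoundaryStationary k μ u T σ b)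
    {e : E n} (he : ‖e‖ = 1) {t : ℝ} (ht : 0 < t) (ht1 : t < 1) :
    ∫ p, ((1 - t ^ 2) / (1 + t ^ 2 - 2 * t * ⟪e, b p⟫)) ^ (k - 1) ∂σ ≤
      (Real.sqrt (k ^ k / (k - 1) ^ (k - 1)) / 2) * σ.real univ := by
  have := h.finite_boundary
  have hk' : (3 : ℝ) ≤ k := by exact_mod_cast hk
  have hk0 : (0 : ℝ) < k := by linarith
  have hk1 : (0 : ℝ) < k - 1 := by linarith
  have hk2 : (0 : ℝ) < k - 2 := by linarith
  obtain ⟨m, hm⟩ : ∃ m, m = Real.sqrt ((k : ℝ) - 1) := ⟨_, rfl⟩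
  have hm2 : m ^ 2 = (k : ℝ) - 1 := by rw [hm, Real.sq_sqrt hk1.le]
  have hm0 : 0 ≤ m := by rw [hm]; positivity
  have hm1 : 1 < m := by nlinarith
  have hmm : 0 < m - 1 := by linarith
  have hc : 0 < (m - 1) / (m + 1) := by positivity
  have hc1 : (m - 1) / (m + 1) < 1 := by rw [div_lt_one (by linarith)]; linarith
  have h1 := ratio_bound hk h he ht ht1 hc hc1
  refine h1.trans (mul_le_mul_of_nonneg_right ?_ measureReal_nonneg)
  have hkm : (k : ℝ) = m ^ 2 + 1 := by linarith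
  have hct : 0 < 1 + (m - 1) / (m + 1) * t ^ 2 := by positivity
  rw [rpow_split (by positivity) (by positivity)]
  have e1 : (k * (1 + (m - 1) / (m + 1)) / (2 * (k - 1) * (1 + (m - 1) / (m + 1) * t ^ 2))) *
      ((k - 2) * (1 + (m - 1) / (m + 1)) * (1 + (m - 1) / (m + 1) * t ^ 2) /
        (2 * (k - 1) * ((m - 1) / (m + 1)))) = k / ((k : ℝ) - 1) := by
    rw [← hm2, show (k : ℝ) - 2 = (m - 1) * (m + 1) by linarith]
    generalize 1 + (m - 1) / (m + 1) * t ^ 2 = A at *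
    rw [show 1 + (m - 1) / (m + 1) = 2 * m / (m + 1) by field_simp; ring]
    field_simp
  rw [e1]
  have e2 : ((k : ℝ) / (k - 1)) ^ ((k : ℝ) / 2) =
      (k / ((k : ℝ) - 1)) ^ (((k : ℝ) - 2) / 2) * (k / ((k : ℝ) - 1)) := by
    rw [← Real.rpow_add_one (by positivity)]
    congr 1
    ring
  have e3 : m * ((k : ℝ) / (k - 1)) ^ ((k : ℝ) / 2) = Real.sqrt (k ^ k / (k - 1) ^ (k - 1)) := by
    rw [eq_comm, Real.sqrt_eq_iff_mul_self_eq (by positivity) (by positivity)]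
    have e4 : ((k : ℝ) / (k - 1)) ^ ((k : ℝ) / 2) * ((k : ℝ) / (k - 1)) ^ ((k : ℝ) / 2) =
        ((k : ℝ) / (k - 1)) ^ k := by
      rw [← Real.rpow_add (by positivity), ← Real.rpow_natCast]
      congr 1
      ring
    symm
    calc m * ((k : ℝ) / (k - 1)) ^ ((k : ℝ) / 2) * (m * ((k : ℝ) / (k - 1)) ^ ((k : ℝ) / 2))
        = m ^ 2 * (((k : ℝ) / (k - 1)) ^ ((k : ℝ) / 2) *
            ((k : ℝ) / (k - 1)) ^ ((k : ℝ) / 2)) := by ring
      _ = (k - 1) * ((k : ℝ) / (k - 1)) ^ k := by rw [e4, hm2]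
      _ = k ^ k / (k - 1) ^ (k - 1) := by
          obtain ⟨j, rfl⟩ : ∃ j, k = j + 1 := ⟨k - 1, by omega⟩
          rw [Nat.add_sub_cancel, div_pow, pow_succ ((((j + 1 : ℕ) : ℝ)) - 1)]
          field_simp
  rw [← e3, e2]
  have hP : 0 < (k / ((k : ℝ) - 1)) ^ (((k : ℝ) - 2) / 2) := by positivity
  generalize (k / ((k : ℝ) - 1)) ^ (((k : ℝ) - 2) / 2) = P at *
  have h2t : (1 + (m - 1) / (m + 1) * t ^ 2) / (1 - ((m - 1) / (m + 1)) ^ 2 * t ^ 2) ≤
      (m + 1) / 2 := by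
    have hA : 0 < 1 - ((m - 1) / (m + 1)) ^ 2 * t ^ 2 := by
      have h1 : ((m - 1) / (m + 1)) ^ 2 < 1 := by nlinarith
      nlinarith
    rw [div_le_iff₀ hA]
    have h3 : (m + 1) / 2 * (1 - ((m - 1) / (m + 1)) ^ 2 * t ^ 2) -
        (1 + (m - 1) / (m + 1) * t ^ 2) = (m - 1) / 2 * (1 - t ^ 2) := by
      field_simp
      ring
    have h4 : 0 ≤ (m - 1) / 2 * (1 - t ^ 2) := by
      have : t ^ 2 < 1 := by nlinarith
      have : 0 ≤ 1 - t ^ 2 := by linarith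
      positivity
    linarith
  have e5 : (1 + (m - 1) / (m + 1) * t ^ 2) ^ 2 / (1 - ((m - 1) / (m + 1)) ^ 2 * t ^ 2) *
      (k * (1 + (m - 1) / (m + 1)) / (2 * (k - 1) * (1 + (m - 1) / (m + 1) * t ^ 2)) * P) =
      (1 + (m - 1) / (m + 1) * t ^ 2) / (1 - ((m - 1) / (m + 1)) ^ 2 * t ^ 2) *
        (m / (m + 1) * (k / ((k : ℝ) - 1)) * P) := by
    rw [show 1 + (m - 1) / (m + 1) = 2 * m / (m + 1) by field_simp; ring]
    generalize 1 - ((m - 1) / (m + 1)) ^ 2 * t ^ 2 = B at *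
    generalize 1 + (m - 1) / (m + 1) * t ^ 2 = A at *
    rcases eq_or_ne B 0 with rfl | hB
    · simp
    · field_simp
  rw [e5]
  calc _ ≤ (m + 1) / 2 * (m / (m + 1) * (k / ((k : ℝ) - 1)) * P) :=
        mul_le_mul_of_nonneg_right h2t (by positivity)
    _ = m * (P * (k / ((k : ℝ) - 1))) / 2 := by
        field_simp

theorem far_three {k : ℕ} (hk : 4 ≤ k) {S Γ : Type*} [MeasurableSpace S]
    [MeasurableSpace Γ] {μ : Measure S} {u : S → E n} {T : S → Submodule ℝ (E n)}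
    {σ : Measure Γ} {b : Γ → E n} (h : IsFreeBoundaryStationary k μ u T σ b)
    {e : E n} (he : ‖e‖ = 1) {t : ℝ} (ht : 0 < t) (ht1 : t < 1) :
    ∫ p, ((1 - t ^ 2) / (1 + t ^ 2 - 2 * t * ⟪e, b p⟫)) ^ (k - 1) ∂σ ≤
      (3 * (k : ℝ) ^ (1 / 4 : ℝ)) * σ.real univ := by
  have := h.finite_boundary
  have hk' : (4 : ℝ) ≤ k := by exact_mod_cast hk
  have hk0 : (0 : ℝ) < k := by linarith
  obtain ⟨v, hv⟩ : ∃ v, v = (k : ℝ) ^ (1 / 4 : ℝ) := ⟨_, rfl⟩
  have hv0 : 0 < v := by rw [hv]; positivity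
  have hvk : v ^ 4 = k := by
    rw [hv, ← Real.rpow_natCast, ← Real.rpow_mul hk0.le]
    norm_num
  rw [← hv]
  have ht2 : 1 < 1 / t := by rw [lt_div_iff₀ ht]; linarith
  rcases Nat.lt_or_ge 175 k with hk1 | hk1
  swap
  · refine (far_two (by omega) h he ht ht1).trans ?_
    exact mul_le_mul_of_nonneg_right (Helper33.QR.num_small hk hk1 hv0 hvk) measureReal_nonneg
  rcases le_or_gt ((1 / t + 1 / (1 / t)) / 2) (3 * v * ((1 / t - 1 / (1 / t)) / 2)) with hc | hc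
  · refine (far_one (by omega) h he ht ht1).trans ?_
    refine mul_le_mul_of_nonneg_right ?_ measureReal_nonneg
    refine le_trans (le_of_eq ?_) (Helper33.QR.num_far hk ht2 hc)
    have h3 : (k : ℝ) ^ 2 * (1 / t) ^ 2 - (k - 2) ^ 2 = (k ^ 2 - (k - 2) ^ 2 * t ^ 2) / t ^ 2 := by
      field_simp
    have h4 : (k : ℝ) ^ 2 - (k - 2) ^ 2 * t ^ 2 ≠ 0 := by
      have h4 : ((k : ℝ) - 2) ^ 2 * t ^ 2 < (k : ℝ) ^ 2 := by
        have : t ^ 2 < 1 := by nlinarith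
        nlinarith
      exact (sub_pos.2 h4).ne'
    rw [h3]
    generalize (k : ℝ) ^ 2 - (k - 2) ^ 2 * t ^ 2 = A at *
    field_simp
    ring
  · rw [one_div_one_div] at hc
    obtain ⟨l, a, hl, ha0, ha, hM⟩ := Helper33.QR.num_large (k := k) (by omega) hv0 hvk
      (ρ := (1 / t - t) / 2) (τ := (1 / t + t) / 2) (by linarith) (by positivity)
      (by field_simp; ring) hc
    refine (Helper19.QR.main_bound hk h he ht ht1 hl ha0 ha).trans ?_
    exact mul_le_mul_of_nonneg_right hM measureReal_nonneg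

/-- **Upper bound.** Let `(μ, u, T, σ, b)` be free boundary
stationary data of dimension `k ≥ 4` in the unit ball of `ℝ ^ n` and let `‖y‖ > 1`. The conformal
automorphism of the ball with pole `y` has conformal factor `(‖y‖ ^ 2 - 1) / ‖x - y‖ ^ 2`, so the
integral on the left is the volume of the image of the boundary. It is at most the volume of the
boundary if `‖y‖ ^ 2 ≥ 9 k`, and in any case at most the volume of the boundary times
`k (k ‖y‖ ^ 2 + k - 2) / (k ^ 2 ‖y‖ ^ 2 - (k - 2) ^ 2)`, times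
`sqrt (k ^ k / (k - 1) ^ (k - 1)) / 2` and times `3 k ^ (1 / 4)`. -/
theorem upper {n k : ℕ} (hk : 4 ≤ k) {S Γ : Type*} [MeasurableSpace S] [MeasurableSpace Γ]
    {μ : Measure S} {u : S → E n} {T : S → Submodule ℝ (E n)} {σ : Measure Γ} {b : Γ → E n}
    (h : IsFreeBoundaryStationary k μ u T σ b) (y : E n) (hy : 1 < ‖y‖) :
    ∫ p, ((‖y‖ ^ 2 - 1) / ‖b p - y‖ ^ 2) ^ (k - 1) ∂σ ≤ ratioBound k ‖y‖ * σ.real Set.univ := by
  have := h.finite_boundary
  have hk' : (4 : ℝ) ≤ k := by exact_mod_cast hk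
  have hk0 : (0 : ℝ) < k := by linarith
  have hk2 : (0 : ℝ) < k - 2 := by linarith
  have h0 : (0 : ℝ) < ‖y‖ := by linarith
  have he : ‖‖y‖⁻¹ • y‖ = 1 := by
    rw [norm_smul, norm_inv, norm_norm, inv_mul_cancel₀ h0.ne']
  have ht : 0 < ‖y‖⁻¹ := by positivity
  have ht1 : ‖y‖⁻¹ < 1 := inv_lt_one_of_one_lt₀ hy
  have h1 : ∫ p, ((‖y‖ ^ 2 - 1) / ‖b p - y‖ ^ 2) ^ (k - 1) ∂σ =
      ∫ p, ((1 - (‖y‖⁻¹) ^ 2) / (1 + (‖y‖⁻¹) ^ 2 - 2 * ‖y‖⁻¹ * ⟪‖y‖⁻¹ • y, b p⟫)) ^ (k - 1) ∂σ := by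
    refine integral_congr_ae ?_
    filter_upwards [h.boundary_mem] with p hp
    rw [factor_eq hy hp]
  rw [h1]
  unfold ratioBound
  split_ifs with hs
  · rw [one_mul]
    refine near hk h he ht ?_
    rw [inv_pow, ← div_eq_mul_inv]
    exact (div_le_one (by positivity)).2 hs
  have hm : ∀ {I x y z m : ℝ}, 0 ≤ m → I ≤ x * m → I ≤ y * m → I ≤ z * m →
      I ≤ min x (min y z) * m := by
    intro I x y z m hm hx hy hz
    rcases min_choice x (min y z) with h | h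
    · rw [h]; exact hx
    · rw [h]
      rcases min_choice y z with h' | h'
      · rw [h']; exact hy
      · rw [h']; exact hz
  refine hm measureReal_nonneg ?_ (far_two (by omega) h he ht ht1) (far_three hk h he ht ht1)
  refine (far_one (by omega) h he ht ht1).trans (le_of_eq ?_)
  congr 1
  have h3 : (k : ℝ) ^ 2 * ‖y‖ ^ 2 - (k - 2) ^ 2 ≠ 0 := by
    have h4 : ((k : ℝ) - 2) ^ 2 < (k : ℝ) ^ 2 * ‖y‖ ^ 2 := by
      have : 1 < ‖y‖ ^ 2 := by nlinarith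
      nlinarith
    exact (sub_pos.2 h4).ne'
  have h5 : (k : ℝ) ^ 2 - (k - 2) ^ 2 * (‖y‖⁻¹) ^ 2 =
      (k ^ 2 * ‖y‖ ^ 2 - (k - 2) ^ 2) / ‖y‖ ^ 2 := by
    field_simp
  rw [h5]
  generalize (k : ℝ) ^ 2 * ‖y‖ ^ 2 - (k - 2) ^ 2 = A at *
  field_simp
  ring

theorem upper_all {n k : ℕ} (hk : 4 ≤ k) {S Γ : Type*} [MeasurableSpace S] [MeasurableSpace Γ]
    {μ : Measure S} {u : S → E n} {T : S → Submodule ℝ (E n)} {σ : Measure Γ} {b : Γ → E n}
    (h : IsFreeBoundaryStationary k μ u T σ b) (y : E n) (hy : 1 < ‖y‖) :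
    ∫ p, ((‖y‖ ^ 2 - 1) / ‖b p - y‖ ^ 2) ^ (k - 1) ∂σ ≤
      3 * (k : ℝ) ^ (1 / 4 : ℝ) * σ.real Set.univ := by
  have := h.finite_boundary
  have hk' : (4 : ℝ) ≤ k := by exact_mod_cast hk
  refine (upper hk h y hy).trans (mul_le_mul_of_nonneg_right ?_ measureReal_nonneg)
  unfold ratioBound
  split_ifs with hs
  · have h1 : (1 : ℝ) ≤ (k : ℝ) ^ (1 / 4 : ℝ) := Real.one_le_rpow (by linarith) (by norm_num)
    linarith
  · exact (min_le_right _ _).trans (min_le_right _ _)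

theorem upper_far {n k : ℕ} (hk : 4 ≤ k) {S Γ : Type*} [MeasurableSpace S] [MeasurableSpace Γ]
    {μ : Measure S} {u : S → E n} {T : S → Submodule ℝ (E n)} {σ : Measure Γ} {b : Γ → E n}
    (h : IsFreeBoundaryStationary k μ u T σ b) (y : E n) (hy : 1 < ‖y‖) (hs : 3 * √(k : ℝ) ≤ ‖y‖) :
    ∫ p, ((‖y‖ ^ 2 - 1) / ‖b p - y‖ ^ 2) ^ (k - 1) ∂σ ≤ σ.real Set.univ := by
  have h9 : 9 * (k : ℝ) ≤ ‖y‖ ^ 2 := by
    have h1 : (√(k : ℝ)) ^ 2 = k := Real.sq_sqrt (Nat.cast_nonneg k)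
    have h2 : 0 ≤ √(k : ℝ) := Real.sqrt_nonneg _
    nlinarith
  have h1 := upper hk h y hy
  unfold ratioBound at h1
  rwa [if_pos h9, one_mul] at h1

end Pool.Agent.Helper19.QRU
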